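import Pool.Agent.H180.Mo.Loc

/-!
# Complete sets of orthogonal latin squares of non-prime-power order: Desargues' theorem fails often
# with all centres, `n` cells and `n / 2` directions excepted

`π_2(n) ≤ n - 1`, with equality if `n` is a prime power. Let `C` be a variational set of `n - 1` latin
squares of order `n`, where `n` is not a prime power (it is unknown whether this is possible).

There are `n + 1` directions (rows, columns, and the entries of the `n - 1` squares), and any two cells
agree in exactly one direction. Let the centre `z` be a cell or a direction. For cells `b ≠ c` in line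
with `z` a *failure* is a pair of pairs of cells `x, x'` and `y, y'` in line with `z` such that `bx` is
parallel to `cx'`, `by` is parallel to `cy'`, but `xy` is not parallel to `x'y'` (parallel: agreeing in a
common direction). There are at most about `n ^ 4` such pairs with `bx` parallel to `cx'` and `by` to `cy'`.
For the complete sets which belong to a field there is no failure at all. The centre `z` is exceptional,
if there are at most `n ^ 3 / 1000` failures for some `b`, `c`.

* The number of the exceptional cells is zero or divides `n`; so there are more than `n ^ 3 / 1000`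
  failures for ALL `b`, `c` in line with `o`, for all but at most `n` of the `n ^ 2` cells `o`.
* At most `n / 2 - 1` of the `n + 1` directions are exceptional.
* If the centre `z` is exceptional then for every `b` there is a `c ≠ b` without any failure.

Proof. By the local gap theorem of the library (`DesarguesGap`) an exceptional centre is the centre of a
perspectivity of the projective plane, with the line at infinity as its axis; by the theorem of
André the number of centres off the axis is zero or equal to the number of the elations, which divides
`n`, if `n` is not a prime power; if there are elations with two centres on the axis, they are an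
elementary abelian group of order at most `n / 2`.
-/

set_option autoImplicit false

namespace Pool.Agent.Results.MP_c7a479_co.DesarguesFails

open Finset

/-- `C` is an `m`-dimensional permutation cube of order `n`. -/
def IsPermutationCube (m n : ℕ) (C : (Fin m → Fin n) → Fin n) : Prop :=
  ∀ (x : Fin m → Fin n) (i : Fin m), Function.Bijective fun t : Fin n => C (Function.update x i t)

/-- `C 0, ..., C (k - 1)` is a variational set of `m`-dimensional permutation cubes of order `n`. -/
def IsVariationalSet (m n k : ℕ) (C : Fin k → (Fin m → Fin n) → Fin n) : Prop :=
  (∀ j, IsPermutationCube m n (C j)) ∧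
    ∀ s : Fin m → Fin k, Function.Injective s →
      Function.Bijective fun (x : Fin m → Fin n) (i : Fin m) => C (s i) x

/-- The cells of a latin square of order `n`. -/
abbrev Cell (n : ℕ) := Fin 2 → Fin n

/-- The directions: the two coordinates and the `n - 1` squares. -/
abbrev Dir (n : ℕ) := Fin 2 ⊕ Fin (n - 1)

variable {n : ℕ} (C : Fin (n - 1) → Cell n → Fin n)

/-- The value of the cell `x` in the direction `d`: a coordinate or an entry. -/
def val : Dir n → Cell n → Fin n
  | .inl i, x => x i
  | .inr j, x => C j x

/-- `x`, `y` and `x'`, `y'` are parallel: they agree in a common direction. -/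
def Par (x y x' y' : Cell n) : Prop := ∃ d, val C d x = val C d y ∧ val C d x' = val C d y'

/-- `x` and `y` are in line with the centre `z`: if `z` is a cell, all three cells agree in some
direction; if `z` is a direction, `x` and `y` agree in this direction. -/
def InLine (z : Cell n ⊕ Dir n) (x y : Cell n) : Prop :=
  match z with
  | .inl o => ∃ d, val C d o = val C d x ∧ val C d o = val C d y
  | .inr d => val C d x = val C d y

/-- `x` is not the centre `z`. -/
def Off (z : Cell n ⊕ Dir n) (x : Cell n) : Prop :=
  match z with
  | .inl o => x ≠ o
  | .inr _ => True

open Classical in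
/-- The failures of Desargues' theorem with centre `z` and first pair `b`, `c`: all `(x, x', y, y')` where
`x ≠ x'` and `y ≠ y'` are in line with `z`, no two of `b`, `x`, `y` are in line with `z`, `bx` is
parallel to `cx'`, `by` is parallel to `cy'` and `xy` is not parallel to `x'y'`. -/
noncomputable def failures (z : Cell n ⊕ Dir n) (b c : Cell n) :
    Finset (Cell n × Cell n × Cell n × Cell n) :=
  univ.filter fun t => match t with
    | (x, x', y, y') => (Off z x ∧ Off z x' ∧ Off z y ∧ Off z y') ∧ (x ≠ x' ∧ y ≠ y') ∧
      (InLine C z x x' ∧ InLine C z y y') ∧
      (¬ InLine C z b x ∧ ¬ InLine C z b y ∧ ¬ InLine C z x y) ∧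
      Par C b x c x' ∧ Par C b y c y' ∧ ¬ Par C x y x' y'

/-- The centre `z` is exceptional: there are at most `n ^ 3 / 1000` failures for some `b ≠ c`. -/
def Exceptional (z : Cell n ⊕ Dir n) : Prop :=
  ∃ b c : Cell n, Off z b ∧ Off z c ∧ b ≠ c ∧ InLine C z b c ∧
    1000 * (failures C z b c).card ≤ n ^ 3

variable {C}

theorem isNet (hn : 2 ≤ n) (hC : IsVariationalSet 2 n (n - 1) C) :
    Pool.Agent.H180.Mo.IsNet (val C) := by
  apply Pool.Agent.H180.Mo.isNet_of_inj hn (by simp) (by simp; omega) (by simp)
  have key : ∀ (i : Fin 2) (j : Fin (n - 1)) (x y : Cell n), x i = y i → C j x = C j y → x = y := by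
    intro i j x y h1 h2
    obtain ⟨k, hk⟩ : ∃ k : Fin 2, k ≠ i := exists_ne i
    have hall : ∀ l : Fin 2, l = i ∨ l = k := by
      intro l; fin_cases l <;> fin_cases i <;> fin_cases k <;> simp_all
    have h3 := (hC.1 j x k).1 (a₁ := x k) (a₂ := y k)
    have h4 : Function.update x k (x k) = x := Function.update_eq_self k x
    have h5 : Function.update x k (y k) = y := by
      funext l
      rcases hall l with rfl | rfl
      · rw [Function.update_of_ne hk.symm]; exact h1
      · simp
    simp only [h4, h5] at h3
    have h6 := h3 h2
    funext l
    rcases hall l with rfl | rfl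
    · exact h1
    · exact h6
  intro d e hde x y h1 h2
  rcases d with i | j <;> rcases e with i' | j'
  · have hne : i ≠ i' := fun e => hde (e ▸ rfl)
    funext l
    have : l = i ∨ l = i' := by
      fin_cases l <;> fin_cases i <;> fin_cases i' <;> simp_all
    rcases this with rfl | rfl
    · exact h1
    · exact h2
  · exact key i j' x y h1 h2
  · exact key i' j x y h2 h1
  · have hne : j ≠ j' := fun e => hde (e ▸ rfl)
    have hs : Function.Injective ![j, j'] := by
      intro u v huv
      fin_cases u <;> fin_cases v
      · rfl
      · exact absurd huv hne
      · exact absurd huv hne.symm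
      · rfl
    apply (hC.2 ![j, j'] hs).1
    funext i
    fin_cases i
    · exact h1
    · exact h2

theorem inLine_eq : InLine C = Pool.Agent.H180.Mo.Aligned (val C) := by
  funext z x y
  cases z <;> rfl

theorem off_eq (C : Fin (n - 1) → Cell n → Fin n) : Off = Pool.Agent.H180.Mo.Off (val C) := by
  funext z x
  cases z <;> rfl

theorem par_eq : Par C = Pool.Agent.H180.Mo.Par (val C) := rfl

theorem failures_eq (z : Cell n ⊕ Dir n) (b c : Cell n) :
    failures C z b c = Pool.Agent.H180.Mo.Fails (val C) z b c := by
  ext ⟨x, x', y, y'⟩
  unfold failures Pool.Agent.H180.Mo.Fails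
  simp only [mem_filter, mem_univ, true_and]
  rw [inLine_eq, par_eq, off_eq C]

theorem exceptional_iff (z : Cell n ⊕ Dir n) :
    Exceptional C z ↔ Pool.Agent.H180.Mo.Exceptional (val C) n z := by
  unfold Exceptional Pool.Agent.H180.Mo.Exceptional
  simp only [failures_eq]
  rw [inLine_eq, off_eq C]

/-- **Desargues' theorem fails often in complete sets of orthogonal latin squares.** -/
theorem result (n : ℕ) (hn : 2 ≤ n) (hpp : ¬ IsPrimePow n)
    (C : Fin (n - 1) → (Fin 2 → Fin n) → Fin n) (hC : IsVariationalSet 2 n (n - 1) C) :
    -- the number of the exceptional cells is zero or divides `n`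
    ({o : Cell n | Exceptional C (.inl o)}.ncard = 0 ∨
      {o : Cell n | Exceptional C (.inl o)}.ncard ∣ n) ∧
    -- at most `n / 2 - 1` directions are exceptional
    2 * {d : Dir n | Exceptional C (.inr d)}.ncard + 2 ≤ n ∧
    -- if the centre `z` is exceptional, there is no failure for some pairs
    ∀ z : Cell n ⊕ Dir n, Exceptional C z → ∀ b, Off z b →
      ∃ c, Off z c ∧ b ≠ c ∧ InLine C z b c ∧ failures C z b c = ∅ := by
  have h3 : 3 ≤ n := by
    rcases Nat.lt_or_ge n 3 with h | h
    · exfalso
      have : n = 2 := by omega
      subst this
      exact hpp Nat.prime_two.isPrimePow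
    · exact h
  have hX : Fintype.card (Cell n) = n ^ 2 := by simp
  have hK : Fintype.card (Dir n) = n + 1 := by simp; omega
  have h := Pool.Agent.H180.Mo.main (isNet hn hC) hX hK hpp h3
  simp only [exceptional_iff, failures_eq]
  rw [inLine_eq, off_eq C]
  exact h

end Pool.Agent.Results.MP_c7a479_co.DesarguesFails
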